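import Pool.Agent.H820.TC.Stm

/-!
Project TC of helper820 (MP_1d980c_gt), task E1: forms which vanish on the kernel of a functional,
first case (helper263).
-/

set_option autoImplicit false

namespace Pool.Agent.H263.TC

open Module Pool.Agent.H820.TC

/-- the functional, first case -/
theorem t_e1 : S_e1 := by
  intro X _ _ D hD S hS e he b hb h
  have he0 : e ≠ 0 := by
    rintro rfl
    exact he S.zero_mem
  obtain ⟨ξ0, hξ0⟩ : ∃ x, e x ≠ 0 := by
    by_contra hc
    push Not at hc
    exact he0 (LinearMap.ext hc)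
  obtain ⟨ξ, hξ⟩ : ∃ x, e x = 1 :=
    ⟨(e ξ0)⁻¹ • ξ0, by rw [map_smul, smul_eq_mul, inv_mul_cancel₀ hξ0]⟩
  have hself : ∀ x, b x x = 0 := hD b hb
  have hanti : ∀ x y, b x y = -b y x := by
    intro x y
    have h1 := hself (x + y)
    simp only [map_add, LinearMap.add_apply, hself] at h1
    linarith
  have hform : ∀ x y, b x y = e x * b ξ y - e y * b ξ x := by
    intro x y
    have h1 := h (x - e x • ξ) (y - e y • ξ) (by simp [hξ]) (by simp [hξ])
    simp only [map_sub, map_smul, LinearMap.sub_apply, LinearMap.smul_apply, smul_eq_mul,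
      hself] at h1
    have h2 := hanti x ξ
    rw [h2] at h1
    linarith
  by_contra hb0
  obtain ⟨y0, hy0⟩ : ∃ y, b ξ y ≠ 0 := by
    by_contra hc
    push Not at hc
    apply hb0
    refine LinearMap.ext fun x => LinearMap.ext fun y => ?_
    rw [hform, hc, hc]
    simp
  set y1 := y0 - e y0 • ξ with hy1
  have h1 : e y1 = 0 := by simp [hy1, hξ]
  have h2 : b ξ y1 = b ξ y0 := by
    rw [hy1, map_sub, map_smul, hself]
    simp
  have h3 : b y1 = (-b ξ y0) • e := by
    refine LinearMap.ext fun x => ?_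
    rw [hform, h1, h2, LinearMap.smul_apply, smul_eq_mul]
    ring
  have h4 : e = (-b ξ y0)⁻¹ • b y1 := by
    rw [h3, smul_smul, inv_mul_cancel₀ (neg_ne_zero.mpr hy0), one_smul]
  apply he
  rw [h4]
  exact S.smul_mem _ (hS b hb y1)

end Pool.Agent.H263.TC
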